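import Mathlib

set_option autoImplicit false

open Finset
open Classical

namespace Pool.Agent.Lib.MP_99e3ed_co

/-- `N(I)`: the vertices adjacent to at least one vertex of `I`. -/
noncomputable def nbhd {V : Type*} [Fintype V] (G : SimpleGraph V) (I : Finset V) : Finset V :=
  univ.filter (fun v => ∃ u ∈ I, G.Adj u v)

/-- `E_G[|N(I_k)|]`: the average of `|N(I)|` over all independent sets `I` of size `k`. -/
noncomputable def expNbhd {V : Type*} [Fintype V] (G : SimpleGraph V) (k : ℕ) : ℚ :=
  (∑ I ∈ G.indepSetFinset k, ((nbhd G I).card : ℚ)) / (G.indepSetFinset k).card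

/-- `H_{d,n}` for `n = 2 * d * m`: the disjoint union of `m` copies of `K_{d,d}`. -/
def kddUnion (d m : ℕ) : SimpleGraph (Fin m × Bool × Fin d) :=
  SimpleGraph.fromRel (fun x y => x.1 = y.1 ∧ x.2.1 ≠ y.2.1)

section G

variable {V : Type*} [Fintype V] (G : SimpleGraph V)

lemma mem_nbhd {I : Finset V} {v : V} : v ∈ nbhd G I ↔ ∃ u ∈ I, G.Adj u v := by
  simp [nbhd]

/-- number of ordered adjacent pairs -/
noncomputable def ed (A B : Finset V) : ℕ := ∑ a ∈ A, (B.filter (fun b => G.Adj a b)).card

omit [Fintype V] in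
lemma ed_comm (A B : Finset V) : ed G A B = ed G B A := by
  unfold ed
  simp_rw [Finset.card_filter]
  rw [Finset.sum_comm]
  refine Finset.sum_congr rfl fun b _ => Finset.sum_congr rfl fun a _ => ?_
  simp [G.adj_comm]

lemma ed_univ {d : ℕ} (hG : G.IsRegularOfDegree d) (A : Finset V) : ed G A univ = A.card * d := by
  unfold ed
  rw [Finset.sum_const_nat]
  intro a _
  have := hG a
  rw [← this, ← SimpleGraph.card_neighborFinset_eq_degree]
  congr 1
  ext b
  simp

omit [Fintype V] in
lemma ed_union (A B C : Finset V) (h : Disjoint B C) :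
    ed G A (B ∪ C) = ed G A B + ed G A C := by
  unfold ed
  rw [← Finset.sum_add_distrib]
  refine Finset.sum_congr rfl fun a _ => ?_
  rw [Finset.filter_union, Finset.card_union_of_disjoint]
  exact Finset.disjoint_filter_filter h

omit [Fintype V] in
lemma ed_eq_zero (A B : Finset V) (h : ∀ a ∈ A, ∀ b ∈ B, ¬ G.Adj a b) : ed G A B = 0 := by
  unfold ed
  refine Finset.sum_eq_zero fun a ha => ?_
  rw [Finset.card_eq_zero, Finset.filter_eq_empty_iff]
  exact fun b hb => h a ha b hb

/-- free vertices -/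
noncomputable def free (K : Finset V) : Finset V := univ \ (K ∪ nbhd G K)

lemma indep_disj {K : Finset V} (hK : G.IsIndepSet (K : Set V)) : Disjoint K (nbhd G K) := by
  rw [Finset.disjoint_left]
  intro v hv hv'
  obtain ⟨u, hu, huv⟩ := (mem_nbhd G).1 hv'
  exact hK (by exact_mod_cast hu) (by exact_mod_cast hv) huv.ne huv

lemma card_free {K : Finset V} (hK : G.IsIndepSet (K : Set V)) :
    (free G K).card + K.card + (nbhd G K).card = Fintype.card V := by
  have h1 : (free G K).card + (K ∪ nbhd G K).card = Fintype.card V := by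
    unfold free
    rw [Finset.card_sdiff_add_card_eq_card (Finset.subset_univ _)]
    rfl
  rw [Finset.card_union_of_disjoint (indep_disj G hK)] at h1
  omega

lemma univ_split (K : Finset V) :
    (univ : Finset V) = (free G K ∪ nbhd G K) ∪ K := by
  ext v
  simp only [Finset.mem_univ, Finset.mem_union, free, Finset.mem_sdiff, true_iff]
  tauto

lemma not_adj_free {K : Finset V} {u v : V} (hu : u ∈ K) (hv : v ∈ free G K) : ¬ G.Adj u v := by
  intro h
  have : v ∈ nbhd G K := (mem_nbhd G).2 ⟨u, hu, h⟩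
  simp [free] at hv
  exact hv.2 this

lemma ed_split {d : ℕ} (hG : G.IsRegularOfDegree d) {K : Finset V}
    (hK : G.IsIndepSet (K : Set V)) (A : Finset V) :
    ed G A (free G K) + ed G A (nbhd G K) + ed G A K = A.card * d := by
  rw [← ed_univ G hG, univ_split G K, ed_union, ed_union]
  · rw [Finset.disjoint_left]
    intro v hv hv'
    simp [free] at hv
    exact hv.2 hv'
  · rw [Finset.disjoint_left]
    intro v hv hv'
    rw [Finset.mem_union] at hv
    rcases hv with hv | hv
    · simp [free] at hv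
      exact hv.1 hv'
    · exact (Finset.disjoint_left.1 (indep_disj G hK)) hv' hv

lemma key_edges {d : ℕ} (hG : G.IsRegularOfDegree d) {K : Finset V}
    (hK : G.IsIndepSet (K : Set V)) :
    d * (free G K).card + d * K.card ≤ ed G (free G K) (free G K) + d * (nbhd G K).card := by
  have h1 := ed_split G hG hK (free G K)
  have h2 := ed_split G hG hK K
  have h3 := ed_split G hG hK (nbhd G K)
  have h4 : ed G (free G K) K = 0 :=
    ed_eq_zero G _ _ fun a ha b hb h => not_adj_free G hb ha h.symm
  have h5 : ed G K (free G K) = 0 :=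
    ed_eq_zero G _ _ fun a ha b hb h => not_adj_free G ha hb h
  have h6 : ed G K K = 0 :=
    ed_eq_zero G _ _ fun a ha b hb h =>
      hK (by exact_mod_cast ha) (by exact_mod_cast hb) h.ne h
  have h7 := ed_comm G K (nbhd G K)
  have h8 := ed_comm G (free G K) (nbhd G K)
  nlinarith

lemma card_le_nbhd {d : ℕ} (hd : 1 ≤ d) (hG : G.IsRegularOfDegree d) {K : Finset V}
    (hK : G.IsIndepSet (K : Set V)) : K.card ≤ (nbhd G K).card := by
  have h2 := ed_split G hG hK K
  have h3 := ed_split G hG hK (nbhd G K)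
  have h5 : ed G K (free G K) = 0 :=
    ed_eq_zero G _ _ fun a ha b hb h => not_adj_free G ha hb h
  have h6 : ed G K K = 0 :=
    ed_eq_zero G _ _ fun a ha b hb h =>
      hK (by exact_mod_cast ha) (by exact_mod_cast hb) h.ne h
  have h7 := ed_comm G K (nbhd G K)
  have : K.card * d ≤ (nbhd G K).card * d := by omega
  exact Nat.le_of_mul_le_mul_right this (by omega)

lemma nbhd_insert_card {K : Finset V} {v : V}
    (hv : v ∈ free G K) :
    (nbhd G (insert v K)).card =
      (nbhd G K).card + ((free G K).filter (fun b => G.Adj v b)).card := by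
  have : nbhd G (insert v K) = nbhd G K ∪ (free G K).filter (fun b => G.Adj v b) := by
    ext w
    simp only [mem_nbhd, Finset.mem_insert, exists_eq_or_imp, Finset.mem_union, Finset.mem_filter]
    constructor
    · rintro (h | h)
      · by_cases hw : w ∈ nbhd G K
        · exact Or.inl ((mem_nbhd G).1 hw)
        · refine Or.inr ⟨?_, h⟩
          unfold free
          rw [Finset.mem_sdiff, Finset.mem_union]
          refine ⟨Finset.mem_univ _, ?_⟩
          rintro (h' | h')
          · exact not_adj_free G h' hv h.symm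
          · exact hw h'
      · exact Or.inl h
    · rintro (h | h)
      · exact Or.inr h
      · exact Or.inl h.2
  rw [this, Finset.card_union_of_disjoint]
  rw [Finset.disjoint_left]
  intro w hw hw'
  rw [Finset.mem_filter] at hw'
  have := hw'.1
  unfold free at this
  rw [Finset.mem_sdiff, Finset.mem_union] at this
  exact this.2 (Or.inr hw)

/-- the double counting identity: summing over `I` and `v ∈ I` is summing over `K` and free `v`. -/
lemma double_count (k : ℕ) (f : Finset V → ℤ) :
    ∑ I ∈ G.indepSetFinset (k + 1), ((k + 1 : ℕ) : ℤ) * f I =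
      ∑ K ∈ G.indepSetFinset k, ∑ v ∈ free G K, f (insert v K) := by
  have h1 : ∀ I ∈ G.indepSetFinset (k + 1), ((k + 1 : ℕ) : ℤ) * f I = ∑ v ∈ I, f I := by
    intro I hI
    rw [Finset.sum_const, nsmul_eq_mul]
    rw [SimpleGraph.mem_indepSetFinset_iff] at hI
    rw [hI.card_eq]
  rw [Finset.sum_congr rfl h1, Finset.sum_sigma', Finset.sum_sigma']
  refine Finset.sum_bij' (fun p _ => ⟨p.1.erase p.2, p.2⟩) (fun p _ => ⟨insert p.2 p.1, p.2⟩)
    ?_ ?_ ?_ ?_ ?_
  · rintro ⟨I, v⟩ hI
    simp only [Finset.mem_sigma, SimpleGraph.mem_indepSetFinset_iff] at hI ⊢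
    obtain ⟨hI, hv⟩ := hI
    refine ⟨⟨hI.isIndepSet.mono (by simp), ?_⟩, ?_⟩
    · rw [Finset.card_erase_of_mem hv, hI.card_eq]; rfl
    · unfold free
      rw [Finset.mem_sdiff, Finset.mem_union, mem_nbhd]
      refine ⟨Finset.mem_univ _, ?_⟩
      rintro (h | ⟨u, hu, huv⟩)
      · exact absurd h (Finset.notMem_erase v I)
      · exact hI.isIndepSet (by exact_mod_cast Finset.mem_of_mem_erase hu) (by exact_mod_cast hv)
          huv.ne huv
  · rintro ⟨K, v⟩ hK
    simp only [Finset.mem_sigma, SimpleGraph.mem_indepSetFinset_iff] at hK ⊢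
    obtain ⟨hK, hv⟩ := hK
    have hvK : v ∉ K := by
      unfold free at hv
      rw [Finset.mem_sdiff, Finset.mem_union] at hv
      exact fun h => hv.2 (Or.inl h)
    refine ⟨⟨?_, ?_⟩, Finset.mem_insert_self _ _⟩
    · rw [Finset.coe_insert, SimpleGraph.IsIndepSet, Set.pairwise_insert]
      refine ⟨hK.isIndepSet, fun b hb _ => ⟨?_, ?_⟩⟩
      · exact fun h => not_adj_free G (by exact_mod_cast hb) hv h.symm
      · exact fun h => not_adj_free G (by exact_mod_cast hb) hv h
    · rw [Finset.card_insert_of_notMem hvK, hK.card_eq]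
  · rintro ⟨I, v⟩ hI
    simp only [Finset.mem_sigma] at hI
    simp [Finset.insert_erase hI.2]
  · rintro ⟨K, v⟩ hK
    simp only [Finset.mem_sigma] at hK
    have hvK : v ∉ K := by
      have hv := hK.2
      unfold free at hv
      rw [Finset.mem_sdiff, Finset.mem_union] at hv
      exact fun h => hv.2 (Or.inl h)
    simp [Finset.erase_insert hvK]
  · rintro ⟨I, v⟩ hI
    simp only [Finset.mem_sigma] at hI
    simp [Finset.insert_erase hI.2]

lemma sum_nonneg_G {d m k : ℕ} (hd : 1 ≤ d) (hV : Fintype.card V = 2 * d * m)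
    (hG : G.IsRegularOfDegree d) (hk : d * m < (k + 1) + d) :
    0 ≤ ∑ I ∈ G.indepSetFinset (k + 1), (((nbhd G I).card : ℤ) - (d * m : ℕ)) := by
  have hmain : 0 ≤ ∑ I ∈ G.indepSetFinset (k + 1),
      ((k + 1 : ℕ) : ℤ) * (((nbhd G I).card : ℤ) - (d * m : ℕ)) := by
    rw [double_count G k (fun I => ((nbhd G I).card : ℤ) - (d * m : ℕ))]
    refine Finset.sum_nonneg fun K hK => ?_
    rw [SimpleGraph.mem_indepSetFinset_iff] at hK
    have hKi := hK.isIndepSet
    have hKc := hK.card_eq
    have e1 : ∑ v ∈ free G K, (((nbhd G (insert v K)).card : ℤ) - (d * m : ℕ)) =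
        (free G K).card * ((nbhd G K).card - (d * m : ℕ) : ℤ) + ed G (free G K) (free G K) := by
      have : ∀ v ∈ free G K, (((nbhd G (insert v K)).card : ℤ) - (d * m : ℕ)) =
          ((nbhd G K).card - (d * m : ℕ) : ℤ) +
            (((free G K).filter (fun b => G.Adj v b)).card : ℤ) := by
        intro v hv
        rw [nbhd_insert_card G hv]
        push_cast
        ring
      rw [Finset.sum_congr rfl this, Finset.sum_add_distrib, Finset.sum_const, nsmul_eq_mul]
      unfold ed
      push_cast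
      ring
    rw [e1]
    have h1 := key_edges G hG hKi
    have h2 := card_le_nbhd G hd hG hKi
    have h3 := card_free G hKi
    rw [hKc] at h1 h2 h3
    rw [hV] at h3
    generalize (free G K).card = r at *
    generalize (nbhd G K).card = j at *
    generalize ed G (free G K) (free G K) = e at *
    have h3' : (r : ℤ) + k + j = 2 * (d * m : ℕ) := by
      have : r + k + j = 2 * (d * m) := by rw [h3]; ring
      exact_mod_cast this
    have h1' : (d : ℤ) * r + d * k ≤ e + d * j := by exact_mod_cast h1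
    have h2' : (k : ℤ) ≤ j := by exact_mod_cast h2
    have hk' : ((d * m : ℕ) : ℤ) < k + 1 + d := by exact_mod_cast hk
    generalize ((d * m : ℕ) : ℤ) = h at *
    rcases le_or_gt h (j : ℤ) with hj | hj
    · have : 0 ≤ (r : ℤ) * (j - h) := mul_nonneg (by positivity) (by linarith)
      have : (0 : ℤ) ≤ e := by positivity
      linarith
    · have hr : (r : ℤ) = 2 * h - k - j := by linarith
      have hr2 : (r : ℤ) ≤ 2 * d := by linarith
      have he : 2 * (d : ℤ) * (h - j) ≤ e := by
        have : (d : ℤ) * (r + k - j) = 2 * (d : ℤ) * (h - j) := by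
          rw [hr]; ring
        nlinarith
      nlinarith [mul_nonneg (sub_nonneg.2 hr2) (sub_nonneg.2 hj.le)]
  rw [← Finset.mul_sum] at hmain
  by_contra hcon
  push Not at hcon
  have : ((k + 1 : ℕ) : ℤ) * ∑ I ∈ G.indepSetFinset (k + 1), (((nbhd G I).card : ℤ) - (d * m : ℕ)) < 0 :=
    mul_neg_of_pos_of_neg (by positivity) hcon
  linarith

lemma expNbhd_le (k c : ℕ) (h : ∀ I : Finset V, G.IsIndepSet (I : Set V) → (nbhd G I).card ≤ c) :
    expNbhd G k ≤ (c : ℚ) := by
  unfold expNbhd
  refine div_le_of_le_mul₀ (Nat.cast_nonneg _) (Nat.cast_nonneg _) ?_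
  refine (Finset.sum_le_card_nsmul _ _ (c : ℚ) fun I hI => ?_).trans ?_
  · rw [SimpleGraph.mem_indepSetFinset_iff] at hI
    exact Nat.cast_le.2 (h I hI.isIndepSet)
  · rw [nsmul_eq_mul]
    exact le_of_eq (mul_comm _ _)

end G

lemma kdd_adj (d m : ℕ) (x y : Fin m × Bool × Fin d) :
    (kddUnion d m).Adj x y ↔ x.1 = y.1 ∧ x.2.1 ≠ y.2.1 := by
  unfold kddUnion
  rw [SimpleGraph.fromRel_adj]
  constructor
  · rintro ⟨_, h | h⟩
    · exact h
    · exact ⟨h.1.symm, h.2.symm⟩
  · intro h
    refine ⟨?_, Or.inl h⟩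
    rintro rfl
    exact h.2 rfl

lemma nbhd_H_le (d m : ℕ) (I : Finset (Fin m × Bool × Fin d))
    (hI : (kddUnion d m).IsIndepSet (I : Set _)) : (nbhd (kddUnion d m) I).card ≤ d * m := by
  have hinj : Set.InjOn (fun x : Fin m × Bool × Fin d => (x.1, x.2.2))
      (nbhd (kddUnion d m) I : Set (Fin m × Bool × Fin d)) := by
    intro x hx y hy hxy
    rw [Finset.mem_coe, mem_nbhd] at hx hy
    obtain ⟨u, hu, hux⟩ := hx
    obtain ⟨v, hv, hvy⟩ := hy
    rw [kdd_adj] at hux hvy
    simp only [Prod.mk.injEq] at hxy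
    obtain ⟨h1, h2⟩ := hxy
    have huv : u.2.1 = v.2.1 := by
      by_contra hne
      have hadj : (kddUnion d m).Adj u v := by
        rw [kdd_adj]
        exact ⟨by rw [hux.1, hvy.1, h1], hne⟩
      exact hI (by exact_mod_cast hu) (by exact_mod_cast hv) hadj.ne hadj
    have h3 : x.2.1 = y.2.1 := by
      have a := hux.2
      have b := hvy.2
      rw [huv] at a
      revert a b
      cases x.2.1 <;> cases y.2.1 <;> cases v.2.1 <;> simp
    exact Prod.ext h1 (Prod.ext h3 h2)
  have := Finset.card_le_card_of_injOn (s := nbhd (kddUnion d m) I)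
    (t := (univ : Finset (Fin m × Fin d))) _ (fun _ _ => Finset.mem_coe.2 (Finset.mem_univ _)) hinj
  simpa [mul_comm] using this

theorem top_range (d m : ℕ) (hd : 1 ≤ d) (V : Type*) [Fintype V] (hV : Fintype.card V = 2 * d * m)
    (G : SimpleGraph V) (hG : G.IsRegularOfDegree d) (k : ℕ) (hk1 : 1 ≤ k)
    (hkα : k ≤ G.indepNum) (hk : d * m < k + d) :
    expNbhd (kddUnion d m) k ≤ expNbhd G k := by
  obtain ⟨k, rfl⟩ : ∃ k', k = k' + 1 := ⟨k - 1, by omega⟩
  have hne : (G.indepSetFinset (k + 1)).Nonempty := by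
    obtain ⟨I, hI⟩ := G.exists_isNIndepSet_indepNum
    obtain ⟨J, hJI, hJ⟩ := Finset.exists_subset_card_eq (s := I) (n := k + 1)
      (by rw [hI.card_eq]; exact hkα)
    refine ⟨J, ?_⟩
    rw [SimpleGraph.mem_indepSetFinset_iff]
    exact ⟨hI.isIndepSet.mono (by exact_mod_cast hJI), hJ⟩
  have hG1 : ((d * m : ℕ) : ℚ) ≤ expNbhd G (k + 1) := by
    unfold expNbhd
    rw [le_div_iff₀ (Nat.cast_pos.2 hne.card_pos)]
    have := sum_nonneg_G G hd hV hG hk
    rw [Finset.sum_sub_distrib, Finset.sum_const, nsmul_eq_mul] at this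
    have h2 : (((G.indepSetFinset (k + 1)).card : ℤ) * (d * m : ℕ)) ≤
        ∑ I ∈ G.indepSetFinset (k + 1), ((nbhd G I).card : ℤ) := by linarith
    have h3 : (((G.indepSetFinset (k + 1)).card : ℚ) * (d * m : ℕ)) ≤
        ∑ I ∈ G.indepSetFinset (k + 1), ((nbhd G I).card : ℚ) := by
      have h4 := (Int.cast_le (R := ℚ)).2 h2
      simpa only [Int.cast_mul, Int.cast_natCast, Int.cast_sum] using h4
    exact (le_of_eq (mul_comm _ _)).trans h3
  have hH1 : expNbhd (kddUnion d m) (k + 1) ≤ ((d * m : ℕ) : ℚ) := by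
    exact expNbhd_le _ _ _ fun I hI => nbhd_H_le d m I hI
  exact hH1.trans hG1

end Pool.Agent.Lib.MP_99e3ed_co
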