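import Pool.Agent.Lib.MP_99e3ed_co.Slack

set_option autoImplicit false

open Finset
open Classical

namespace Pool.Agent.Lib.MP_99e3ed_co

/-- The termwise inequality between the coefficients. -/
lemma bc_ineq {d : ℕ} (hd : 1 ≤ d) {n : ℚ} {k j : ℕ} (hj : j + 1 ≤ k)
    (hn : 3 * (d : ℚ) * ((k : ℚ) - 1) ≤ n) :
    bc d n k (j + 1) ≤ 2 * ((d : ℚ) - 1) * bc d n (k - 1) j := by
  unfold bc
  have hk : ((k - 1 : ℕ) : ℚ) = (k : ℚ) - 1 := by
    rw [Nat.cast_sub (by omega)]; simp
  rw [hk]
  push_cast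
  have hX : 0 ≤ (k : ℚ) - (j + 1) := by
    have : ((j + 1 : ℕ) : ℚ) ≤ k := by exact_mod_cast hj
    push_cast at this
    linarith
  have hd' : (1 : ℚ) ≤ d := by exact_mod_cast hd
  have hjq : (0 : ℚ) ≤ j := by positivity
  set X : ℚ := (k : ℚ) - (j + 1) with hXdef
  have e1 : (k : ℚ) - 1 - j = X := by rw [hXdef]; ring
  rw [e1]
  have hy : 3 * (d : ℚ) * X ≤ n := by
    refine le_trans ?_ hn
    refine mul_le_mul_of_nonneg_left ?_ (by positivity)
    rw [hXdef]; linarith
  have hy0 : 0 ≤ (d : ℚ) * X := by positivity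
  have hc : (d.choose (j + 1 + 1) : ℚ) * ((j : ℚ) + 2) =
      (d.choose (j + 1) : ℚ) * ((d : ℚ) - j - 1) := by
    have h6 := Nat.choose_succ_right_eq d (j + 1)
    rcases le_or_gt (j + 1) d with h | h
    · have h7 : ((d - (j + 1) : ℕ) : ℚ) = (d : ℚ) - j - 1 := by
        rw [Nat.cast_sub h]; push_cast; ring
      rw [← h7]
      have h8 : ((j : ℚ) + 2) = ((j + 1 + 1 : ℕ) : ℚ) := by push_cast; ring
      rw [h8]
      exact_mod_cast h6
    · rw [Nat.choose_eq_zero_of_lt h, Nat.choose_eq_zero_of_lt (by omega : d < j + 1 + 1)]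
      simp
  have hj2 : (0 : ℚ) < (j : ℚ) + 2 := by linarith
  refine le_of_mul_le_mul_left ?_ hj2
  have hC : (0 : ℚ) ≤ (d.choose (j + 1) : ℚ) := by positivity
  have h1 : ((j : ℚ) + 2) * ((d.choose (j + 1 + 1) : ℚ) * (((j : ℚ) + 1 + 1) * n - 2 * d * X)) =
      (d.choose (j + 1) : ℚ) * (((d : ℚ) - j - 1) * (((j : ℚ) + 2) * n - 2 * d * X)) := by
    calc _ = ((d.choose (j + 1 + 1) : ℚ) * ((j : ℚ) + 2)) * (((j : ℚ) + 1 + 1) * n - 2 * d * X) := by
          ring
      _ = _ := by rw [hc]; ring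
  rw [h1]
  have h2 : ((j : ℚ) + 2) * (2 * ((d : ℚ) - 1) *
      ((d.choose (j + 1) : ℚ) * (((j : ℚ) + 1) * n - 2 * d * X))) =
      (d.choose (j + 1) : ℚ) * (((d : ℚ) - 1) *
        (2 * ((j : ℚ) + 2) * (((j : ℚ) + 1) * n - 2 * d * X))) := by ring
  rw [h2]
  refine mul_le_mul_of_nonneg_left ?_ hC
  have h3 : 0 ≤ ((j : ℚ) + 2) * n - 2 * d * X := by nlinarith
  have h4 : ((j : ℚ) + 2) * n - 2 * d * X ≤
      2 * ((j : ℚ) + 2) * (((j : ℚ) + 1) * n - 2 * d * X) := by nlinarith
  calc ((d : ℚ) - j - 1) * (((j : ℚ) + 2) * n - 2 * d * X)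
      ≤ ((d : ℚ) - 1) * (((j : ℚ) + 2) * n - 2 * d * X) :=
        mul_le_mul_of_nonneg_right (by linarith) h3
    _ ≤ _ := mul_le_mul_of_nonneg_left h4 (by linarith)

/-- The induction, for abstract sequences. -/
lemma induct {d : ℕ} (hd : 1 ≤ d) {n : ℚ} (x h Q : ℕ → ℚ)
    (hx : ∀ k, Q k = ∑ j ∈ range (k + 1), bc d n k j * x (k - j) - d * (k + 1) * x (k + 1))
    (hh : ∀ k, 0 = ∑ j ∈ range (k + 1), bc d n k j * h (k - j) - d * (k + 1) * h (k + 1))
    (hQ0 : 0 ≤ Q 0) {K : ℕ} (hpos : ∀ l ≤ K + 1, 0 < h l)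
    (hK : 3 * (d : ℚ) * ((K : ℚ) - 1) ≤ n)
    (hgrow : ∀ k < K, 2 * ((d : ℚ) - 1) * Q k ≤ Q (k + 1)) :
    ∀ k ≤ K, x (k + 1) / h (k + 1) ≤ x k / h k := by
  intro k
  induction k using Nat.strong_induction_on with
  | _ k ih =>
    intro hkK
    set g : ℕ → ℚ := fun l => x l / h l with hg
    have hd' : (1 : ℚ) ≤ d := by exact_mod_cast hd
    have hxg : ∀ l ≤ K + 1, x l = h l * g l := by
      intro l hl
      have := hpos l hl
      simp only [hg]
      field_simp
    -- monotonicity below `k`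
    have hmono : ∀ i, i ≤ k → g k ≤ g (k - i) := by
      intro i
      induction i with
      | zero => intro _; simp
      | succ i ihi =>
        intro hi
        have h1 := ihi (by omega)
        have h2 := ih (k - (i + 1)) (by omega) (by omega)
        have h3 : k - (i + 1) + 1 = k - i := by omega
        rw [h3] at h2
        exact h1.trans h2
    -- the recursion at `k`
    have hE : (d : ℚ) * (k + 1) * h (k + 1) * (g k - g (k + 1)) =
        Q k - ∑ j ∈ range k, bc d n k (j + 1) * h (k - (j + 1)) * (g (k - (j + 1)) - g k) := by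
      have h1 := hx k
      have h2 := hh k
      rw [Finset.sum_range_succ'] at h1 h2
      have h3 : ∑ j ∈ range k, bc d n k (j + 1) * x (k - (j + 1)) =
          ∑ j ∈ range k, bc d n k (j + 1) * h (k - (j + 1)) * g (k - (j + 1)) := by
        refine Finset.sum_congr rfl fun j _ => ?_
        rw [hxg (k - (j + 1)) (by omega)]
        ring
      have h4 : ∑ j ∈ range k, bc d n k (j + 1) * h (k - (j + 1)) * (g (k - (j + 1)) - g k) =
          ∑ j ∈ range k, bc d n k (j + 1) * h (k - (j + 1)) * g (k - (j + 1)) -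
          (∑ j ∈ range k, bc d n k (j + 1) * h (k - (j + 1))) * g k := by
        rw [Finset.sum_mul, ← Finset.sum_sub_distrib]
        exact Finset.sum_congr rfl fun j _ => by ring
      rw [h3, hxg (k + 1) (by omega)] at h1
      simp only [Nat.sub_zero] at h1 h2
      rw [hxg k (by omega)] at h1
      rw [h4, h1]
      have h5 : ∑ j ∈ range k, bc d n k (j + 1) * h (k - (j + 1)) =
          d * (k + 1) * h (k + 1) - bc d n k 0 * h k := by linarith
      rw [h5]
      ring
    have hpos1 : 0 < (d : ℚ) * (k + 1) * h (k + 1) := by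
      have := hpos (k + 1) (by omega)
      positivity
    have hfin : 0 ≤ (d : ℚ) * (k + 1) * h (k + 1) * (g k - g (k + 1)) := by
      rw [hE]
      rcases Nat.eq_zero_or_pos k with h0 | h0
      · subst h0
        simpa using hQ0
      · -- the recursion at `k - 1`
        have h1 := hx (k - 1)
        have h2 := hh (k - 1)
        have hk1 : k - 1 + 1 = k := by omega
        rw [hk1] at h1 h2
        have hk2 : (((k - 1 : ℕ) : ℚ) + 1) = k := by
          have : ((k - 1 + 1 : ℕ) : ℚ) = k := by rw [hk1]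
          push_cast at this
          exact this
        rw [hk2] at h1 h2
        have h3 : Q (k - 1) = ∑ j ∈ range k,
            bc d n (k - 1) j * h (k - (j + 1)) * (g (k - (j + 1)) - g k) := by
          have h4 : ∑ j ∈ range k, bc d n (k - 1) j * h (k - (j + 1)) * (g (k - (j + 1)) - g k) =
            ∑ j ∈ range k, bc d n (k - 1) j * x (k - 1 - j) -
            (∑ j ∈ range k, bc d n (k - 1) j * h (k - 1 - j)) * g k := by
            rw [Finset.sum_mul, ← Finset.sum_sub_distrib]
            refine Finset.sum_congr rfl fun j _ => ?_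
            have h5 : k - (j + 1) = k - 1 - j := by omega
            rw [h5, hxg (k - 1 - j) (by omega)]
            ring
          rw [h4, h1, hxg k (by omega)]
          have h6 : ∑ j ∈ range k, bc d n (k - 1) j * h (k - 1 - j) = d * k * h k := by linarith
          rw [h6]
          ring
        have h4 := hgrow (k - 1) (by omega)
        rw [hk1] at h4
        have h5 : ∑ j ∈ range k, bc d n k (j + 1) * h (k - (j + 1)) * (g (k - (j + 1)) - g k) ≤
            2 * ((d : ℚ) - 1) * Q (k - 1) := by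
          rw [h3, Finset.mul_sum]
          refine Finset.sum_le_sum fun j hj => ?_
          have hj' := Finset.mem_range.1 hj
          have h6 : bc d n k (j + 1) ≤ 2 * ((d : ℚ) - 1) * bc d n (k - 1) j := by
            refine bc_ineq hd (by omega) (le_trans ?_ hK)
            have : (k : ℚ) ≤ K := by exact_mod_cast hkK
            refine mul_le_mul_of_nonneg_left (by linarith) (by positivity)
          have h7 : 0 ≤ h (k - (j + 1)) * (g (k - (j + 1)) - g k) :=
            mul_nonneg (hpos _ (by omega)).le (sub_nonneg.2 (hmono (j + 1) (by omega)))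
          calc bc d n k (j + 1) * h (k - (j + 1)) * (g (k - (j + 1)) - g k)
              = bc d n k (j + 1) * (h (k - (j + 1)) * (g (k - (j + 1)) - g k)) := by ring
            _ ≤ 2 * ((d : ℚ) - 1) * bc d n (k - 1) j *
                (h (k - (j + 1)) * (g (k - (j + 1)) - g k)) := mul_le_mul_of_nonneg_right h6 h7
            _ = _ := by ring
        linarith
    have := nonneg_of_mul_nonneg_right hfin hpos1
    linarith

section Relation

variable {V : Type*} [Fintype V] (G : SimpleGraph V)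

lemma expNbhd_eq {n k : ℕ} (hn : Fintype.card V = n) (hk : 0 < ic G k) :
    expNbhd G k = ((n : ℚ) - k) - (k + 1) * (ic G (k + 1) : ℚ) / ic G k := by
  have h1 : ∑ I ∈ G.indepSetFinset k, ((nbhd G I).card : ℚ) =
      ((n : ℚ) - k) * ic G k - (k + 1) * ic G (k + 1) := by
    have h := double_count G k (fun _ => 1)
    simp only [mul_one, Finset.sum_const, nsmul_eq_mul] at h
    have h2 : ∑ K ∈ G.indepSetFinset k, ((free G K).card : ℚ) = (k + 1) * ic G (k + 1) := by
      have h3 : ((∑ K ∈ G.indepSetFinset k, (free G K).card : ℕ) : ℤ) =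
          ((ic G (k + 1) * (k + 1) : ℕ) : ℤ) := by
        push_cast
        rw [← h]
        rfl
      have h4 : ((∑ K ∈ G.indepSetFinset k, (free G K).card : ℕ) : ℚ) =
          ((ic G (k + 1) * (k + 1) : ℕ) : ℚ) := by exact_mod_cast h3
      push_cast at h4
      rw [h4]
      ring
    rw [← h2]
    have h3 : ∀ I ∈ G.indepSetFinset k, ((nbhd G I).card : ℚ) =
        ((n : ℚ) - k) - ((free G I).card : ℚ) := by
      intro I hI
      rw [mem_ind] at hI
      have h4 := card_free G (ind_iff.2 hI.1)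
      rw [hn, hI.2] at h4
      have h5 : ((free G I).card : ℚ) + k + (nbhd G I).card = n := by exact_mod_cast h4
      linarith
    rw [Finset.sum_congr rfl h3, Finset.sum_sub_distrib, Finset.sum_const, nsmul_eq_mul]
    unfold ic
    ring
  have hk' : (0 : ℚ) < ic G k := by exact_mod_cast hk
  unfold expNbhd
  rw [h1]
  unfold ic at hk' ⊢
  field_simp

end Relation

lemma kdd_regular (d m : ℕ) : (kddUnion d m).IsRegularOfDegree d := by
  intro v
  rw [← SimpleGraph.card_neighborFinset_eq_degree]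
  have : (kddUnion d m).neighborFinset v =
      (univ : Finset (Fin d)).image (fun i => (v.1, !v.2.1, i)) := by
    ext w
    rw [SimpleGraph.mem_neighborFinset, kdd_adj, Finset.mem_image]
    constructor
    · rintro ⟨h1, h2⟩
      refine ⟨w.2.2, Finset.mem_univ _, ?_⟩
      have h3 : w.2.1 = !v.2.1 := by
        cases h : w.2.1 <;> cases h' : v.2.1 <;> simp_all
      rw [h1, ← h3]
    · rintro ⟨i, _, rfl⟩
      exact ⟨rfl, by simp⟩
  rw [this, Finset.card_image_of_injective, Finset.card_univ, Fintype.card_fin]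
  intro i j h
  simpa using h

lemma kdd_twin (d m : ℕ) : ∀ v a b w, (kddUnion d m).Adj v a → (kddUnion d m).Adj v b →
    (kddUnion d m).Adj a w → (kddUnion d m).Adj b w := by
  intro v a b w h1 h2 h3
  rw [kdd_adj] at *
  refine ⟨h2.1.symm.trans (h1.1.trans h3.1), ?_⟩
  have e1 := h1.2
  have e2 := h2.2
  have e3 := h3.2
  cases hv : v.2.1 <;> cases ha : a.2.1 <;> cases hb : b.2.1 <;> cases hw : w.2.1 <;> simp_all

lemma kdd_card (d m : ℕ) : Fintype.card (Fin m × Bool × Fin d) = 2 * d * m := by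
  simp only [Fintype.card_prod, Fintype.card_fin, Fintype.card_bool]
  ring

lemma kdd_pos (d m l : ℕ) (hl : l ≤ d * m) : 0 < ic (kddUnion d m) l := by
  unfold ic
  rw [Finset.card_pos]
  let S : Finset (Fin m × Bool × Fin d) := univ.filter (fun x => x.2.1 = true)
  have hS : S.card = d * m := by
    have : S = (univ : Finset (Fin m × Fin d)).image (fun x => (x.1, true, x.2)) := by
      ext x
      simp only [S, Finset.mem_filter, Finset.mem_univ, true_and, Finset.mem_image]
      constructor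
      · intro h
        exact ⟨(x.1, x.2.2), by rw [← h]⟩
      · rintro ⟨y, rfl⟩
        rfl
    rw [this, Finset.card_image_of_injective]
    · simp [mul_comm]
    · rintro ⟨a, b⟩ ⟨c, e⟩ h
      simpa using h
  obtain ⟨J, hJS, hJ⟩ := Finset.exists_subset_card_eq (s := S) (n := l) (by rw [hS]; exact hl)
  refine ⟨J, ?_⟩
  rw [mem_ind]
  refine ⟨?_, hJ⟩
  intro a ha b hb hab
  rw [kdd_adj] at hab
  have h1 := (Finset.mem_filter.1 (hJS ha)).2
  have h2 := (Finset.mem_filter.1 (hJS hb)).2
  exact hab.2 (h1.trans h2.symm)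

theorem small_range (d m : ℕ) (hd : 1 ≤ d) (V : Type*) [Fintype V]
    (hV : Fintype.card V = 2 * d * m)
    (G : SimpleGraph V) (hG : G.IsRegularOfDegree d) (k : ℕ) (hk1 : 1 ≤ k)
    (hkα : k ≤ G.indepNum) (hk : 3 * d * (k - 1) ≤ 2 * d * m) :
    expNbhd (kddUnion d m) k ≤ expNbhd G k := by
  rcases lt_or_ge (d * m) (k + d) with hcase | hcase
  · exact top_range d m hd V hV G hG k hk1 hkα hcase
  have hkm : k + 1 ≤ d * m := by omega
  have hd' : (1 : ℚ) ≤ d := by exact_mod_cast hd
  have hGpos : 0 < ic G k := by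
    unfold ic
    rw [Finset.card_pos]
    obtain ⟨I, hI⟩ := G.exists_isNIndepSet_indepNum
    obtain ⟨J, hJI, hJ⟩ := Finset.exists_subset_card_eq (s := I) (n := k)
      (by rw [hI.card_eq]; exact hkα)
    refine ⟨J, ?_⟩
    rw [mem_ind]
    exact ⟨(ind_iff.1 hI.isIndepSet).mono hJI, hJ⟩
  have hHpos : ∀ l ≤ k + 1, 0 < ic (kddUnion d m) l := fun l hl => kdd_pos d m l (by omega)
  have hreg := kdd_regular d m
  have hcard := kdd_card d m
  have hk' : 3 * (d : ℚ) * ((k : ℚ) - 1) ≤ ((2 * d * m : ℕ) : ℚ) := by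
    have h1 : ((3 * d * (k - 1) : ℕ) : ℚ) ≤ ((2 * d * m : ℕ) : ℚ) := by exact_mod_cast hk
    have h2 : ((k - 1 : ℕ) : ℚ) = (k : ℚ) - 1 := by
      rw [Nat.cast_sub hk1]; simp
    rw [Nat.cast_mul, h2] at h1
    push_cast at h1 ⊢
    exact h1
  have key := induct (d := d) hd (n := ((2 * d * m : ℕ) : ℚ)) (fun l => (ic G l : ℚ))
    (fun l => (ic (kddUnion d m) l : ℚ)) (fun l => slack G d ((2 * d * m : ℕ) : ℚ) l)
    (fun l => rfl)
    (fun l => (slack_twin hreg hcard (kdd_twin d m) l).symm)
    (by rw [slack_zero hG hV]) (K := k)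
    (fun l hl => by exact_mod_cast hHpos l hl) hk'
    (by
      intro l hl
      rcases Nat.eq_zero_or_pos l with h0 | h0
      · subst h0
        rw [slack_zero hG hV, slack_one hG hV]
        simp
      obtain ⟨l, rfl⟩ : ∃ l', l = l' + 1 := ⟨l - 1, by omega⟩
      rcases Nat.eq_zero_or_pos l with h0 | h0
      · subst h0
        simp only [zero_add]
        rw [slack_one hG hV]
        simpa using slack_nonneg hG hV 2
      have hlq : (0 : ℚ) < l := by exact_mod_cast h0
      have hlk : ((l : ℚ) + 1) + 1 ≤ k := by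
        have : ((l + 1 + 1 : ℕ) : ℚ) ≤ k := by exact_mod_cast hl
        push_cast at this
        exact this
      have hLbound : 2 * ((d : ℚ) - 1) * l ≤ ((2 * d * m : ℕ) : ℚ) - (d + 1) * (l + 1) := by
        have h1 : 3 * (d : ℚ) * ((l : ℚ) + 1) ≤ ((2 * d * m : ℕ) : ℚ) := by
          refine le_trans ?_ hk'
          exact mul_le_mul_of_nonneg_left (by linarith) (by positivity)
        nlinarith
      have h2 := slack_growth hG hV l hLbound
      have h3 : (l : ℚ) * (2 * ((d : ℚ) - 1) * slack G d ((2 * d * m : ℕ) : ℚ) (l + 1)) ≤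
          l * slack G d ((2 * d * m : ℕ) : ℚ) (l + 2) := by
        calc _ = 2 * ((d : ℚ) - 1) * l * slack G d ((2 * d * m : ℕ) : ℚ) (l + 1) := by ring
          _ ≤ _ := h2
      exact le_of_mul_le_mul_left h3 hlq)
    k le_rfl
  rw [expNbhd_eq G hV hGpos, expNbhd_eq (kddUnion d m) hcard (hHpos k (by omega))]
  have a1 : (0 : ℚ) < ic G k := by exact_mod_cast hGpos
  have a2 : (0 : ℚ) < ic (kddUnion d m) k := by exact_mod_cast hHpos k (by omega)
  have a3 : (0 : ℚ) < ic (kddUnion d m) (k + 1) := by exact_mod_cast hHpos (k + 1) le_rfl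
  rw [div_le_div_iff₀ a3 a2] at key
  have h5 : ((k : ℚ) + 1) * (ic G (k + 1) : ℚ) / ic G k ≤
      ((k : ℚ) + 1) * (ic (kddUnion d m) (k + 1) : ℚ) / ic (kddUnion d m) k := by
    rw [div_le_div_iff₀ a1 a2, mul_assoc, mul_assoc]
    refine mul_le_mul_of_nonneg_left ?_ (by positivity)
    linarith
  linarith

end Pool.Agent.Lib.MP_99e3ed_co
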