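import Pool.Agent.Lib.MP_99e3ed_co.Local

set_option autoImplicit false

open Finset
open Classical

namespace Pool.Agent.Lib.MP_99e3ed_co

section Growth

variable {V : Type*} [Fintype V] (G : SimpleGraph V)

/-- Pairs `A ⊆ T ⊆ N(v)` with `J ∪ A` independent and `J ∪ T` dependent. -/
noncomputable def mc (v : V) (J : Finset V) (s t : ℕ) : ℕ :=
  ∑ T ∈ (nb G v).powersetCard t, ∑ A ∈ T.powersetCard s,
    if Ind G (J ∪ A) ∧ ¬ Ind G (J ∪ T) then 1 else 0

/-- Total number of such triples. -/
noncomputable def tc (s t j : ℕ) : ℕ := ∑ v, ∑ J ∈ fars G v j, mc G v J s t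

variable {G}

omit [Fintype V] in
lemma card_supersets {N A : Finset V} (hA : A ⊆ N) {s t : ℕ} (hs : A.card = s) (hst : s ≤ t) :
    ((N.powersetCard t).filter (fun T => A ⊆ T)).card = (N.card - s).choose (t - s) := by
  have h1 : (N \ A).card = N.card - s := by
    rw [Finset.card_sdiff_of_subset hA, hs]
  rw [← h1, ← Finset.card_powersetCard]
  refine Finset.card_bij' (fun T _ => T \ A) (fun B _ => B ∪ A) ?_ ?_ ?_ ?_
  · intro T hT
    rw [Finset.mem_filter, Finset.mem_powersetCard] at hT
    rw [Finset.mem_powersetCard]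
    refine ⟨Finset.sdiff_subset_sdiff hT.1.1 le_rfl, ?_⟩
    rw [Finset.card_sdiff_of_subset hT.2, hT.1.2, hs]
  · intro B hB
    rw [Finset.mem_powersetCard] at hB
    have hdis : Disjoint B A := by
      rw [Finset.disjoint_left]
      exact fun u hu => (Finset.mem_sdiff.1 (hB.1 hu)).2
    rw [Finset.mem_filter, Finset.mem_powersetCard]
    refine ⟨⟨Finset.union_subset (hB.1.trans Finset.sdiff_subset) hA, ?_⟩,
      Finset.subset_union_right⟩
    rw [Finset.card_union_of_disjoint hdis, hB.2, hs]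
    omega
  · intro T hT
    rw [Finset.mem_filter, Finset.mem_powersetCard] at hT
    exact Finset.sdiff_union_of_subset hT.2
  · intro B hB
    rw [Finset.mem_powersetCard] at hB
    have hdis : Disjoint B A := by
      rw [Finset.disjoint_left]
      exact fun u hu => (Finset.mem_sdiff.1 (hB.1 hu)).2
    rw [Finset.union_sdiff_cancel_right hdis]

lemma mc_formula {d : ℕ} {v : V} (hv : (nb G v).card = d) (J : Finset V) {s t : ℕ}
    (hst : s ≤ t) :
    t.choose s * (d.choose t * (ext G v J s).card) =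
      t.choose s * (d.choose s * (ext G v J t).card) + d.choose s * mc G v J s t := by
  have hX : ∑ T ∈ (nb G v).powersetCard t, ∑ A ∈ T.powersetCard s,
      (if Ind G (J ∪ A) then 1 else 0) = (ext G v J s).card * (d - s).choose (t - s) := by
    have h1 : ∑ T ∈ (nb G v).powersetCard t, ∑ A ∈ T.powersetCard s,
        (if Ind G (J ∪ A) then 1 else 0) =
        ∑ A ∈ (nb G v).powersetCard s, ∑ T ∈ ((nb G v).powersetCard t).filter (fun T => A ⊆ T),
          (if Ind G (J ∪ A) then 1 else 0) := by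
      refine Finset.sum_comm' ?_
      intro T A
      simp only [Finset.mem_powersetCard, Finset.mem_filter]
      constructor
      · rintro ⟨⟨h1, h2⟩, h3, h4⟩
        exact ⟨⟨⟨h1, h2⟩, h3⟩, h3.trans h1, h4⟩
      · rintro ⟨⟨⟨h1, h2⟩, h3⟩, h4, h5⟩
        exact ⟨⟨h1, h2⟩, h3, h5⟩
    rw [h1]
    have h2 : ∀ A ∈ (nb G v).powersetCard s,
        ∑ T ∈ ((nb G v).powersetCard t).filter (fun T => A ⊆ T),
          (if Ind G (J ∪ A) then 1 else 0) =
        (if Ind G (J ∪ A) then 1 else 0) * (d - s).choose (t - s) := by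
      intro A hA
      rw [Finset.mem_powersetCard] at hA
      rw [Finset.sum_const, smul_eq_mul, card_supersets hA.1 hA.2 hst, hv, mul_comm]
    rw [Finset.sum_congr rfl h2, ← Finset.sum_mul]
    congr 1
    rw [← Finset.sum_filter, Finset.sum_const, smul_eq_mul, mul_one]
    rfl
  have hY : ∑ T ∈ (nb G v).powersetCard t, ∑ A ∈ T.powersetCard s,
      (if Ind G (J ∪ T) then 1 else 0) = (ext G v J t).card * t.choose s := by
    have h2 : ∀ T ∈ (nb G v).powersetCard t,
        ∑ A ∈ T.powersetCard s, (if Ind G (J ∪ T) then 1 else 0) =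
        (if Ind G (J ∪ T) then 1 else 0) * t.choose s := by
      intro T hT
      rw [Finset.mem_powersetCard] at hT
      rw [Finset.sum_const, smul_eq_mul, Finset.card_powersetCard, hT.2, mul_comm]
    rw [Finset.sum_congr rfl h2, ← Finset.sum_mul]
    congr 1
    rw [← Finset.sum_filter, Finset.sum_const, smul_eq_mul, mul_one]
    rfl
  have hXY : ∑ T ∈ (nb G v).powersetCard t, ∑ A ∈ T.powersetCard s,
      (if Ind G (J ∪ A) then 1 else 0) =
      ∑ T ∈ (nb G v).powersetCard t, ∑ A ∈ T.powersetCard s,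
      (if Ind G (J ∪ T) then 1 else 0) + mc G v J s t := by
    unfold mc
    rw [← Finset.sum_add_distrib]
    refine Finset.sum_congr rfl fun T _ => ?_
    rw [← Finset.sum_add_distrib]
    refine Finset.sum_congr rfl fun A hA => ?_
    rw [Finset.mem_powersetCard] at hA
    by_cases h1 : Ind G (J ∪ T)
    · have h2 : Ind G (J ∪ A) := h1.mono (Finset.union_subset_union le_rfl hA.1)
      simp [h1, h2]
    · simp [h1]
  rw [hX, hY] at hXY
  have h3 : d.choose t * t.choose s = d.choose s * (d - s).choose (t - s) := Nat.choose_mul hst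
  calc t.choose s * (d.choose t * (ext G v J s).card)
      = (d.choose t * t.choose s) * (ext G v J s).card := by ring
    _ = d.choose s * ((ext G v J s).card * (d - s).choose (t - s)) := by rw [h3]; ring
    _ = _ := by rw [hXY]; ring

lemma tc_formula {d : ℕ} (hG : G.IsRegularOfDegree d) {s t : ℕ} (hst : s ≤ t) (j : ℕ) :
    t.choose s * (d.choose t * ac G j s) =
      t.choose s * (d.choose s * ac G j t) + d.choose s * tc G s t j := by
  unfold ac tc
  simp_rw [Finset.mul_sum]
  rw [← Finset.sum_add_distrib]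
  refine Finset.sum_congr rfl fun v _ => ?_
  rw [← Finset.sum_add_distrib]
  exact Finset.sum_congr rfl fun J _ => mc_formula (card_nb hG v) J hst

/-- Closed neighbourhood. -/
noncomputable def cl (G : SimpleGraph V) (X : Finset V) : Finset V := X ∪ X.biUnion (nb G)

lemma card_cl {d : ℕ} (hG : G.IsRegularOfDegree d) (X : Finset V) :
    (cl G X).card ≤ (d + 1) * X.card := by
  unfold cl
  refine (Finset.card_union_le _ _).trans ?_
  have : (X.biUnion (nb G)).card ≤ X.card * d :=
    Finset.card_biUnion_le_card_mul _ _ _ fun v _ => (card_nb hG v).le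
  nlinarith

/-- The sets `J` far from `v` with `J ∪ A` independent and `J ∪ T` dependent. -/
noncomputable def pj (G : SimpleGraph V) (v : V) (A T : Finset V) (j : ℕ) : Finset (Finset V) :=
  (fars G v j).filter (fun J => Ind G (J ∪ A) ∧ ¬ Ind G (J ∪ T))

lemma mem_pj {v : V} {A T J : Finset V} {j : ℕ} :
    J ∈ pj G v A T j ↔ (J.card = j ∧ Far G v J) ∧ Ind G (J ∪ A) ∧ ¬ Ind G (J ∪ T) := by
  rw [pj, Finset.mem_filter, mem_fars]

lemma pj_insert {v : V} {A T J : Finset V} {j : ℕ} (hJ : J ∈ pj G v A T j) {w : V}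
    (hw : w ∉ cl G (insert v (J ∪ A))) : w ∉ J ∧ insert w J ∈ pj G v A T (j + 1) := by
  rw [mem_pj] at hJ ⊢
  obtain ⟨⟨hJc, hvJ, hJi, hJv⟩, hJA, hJT⟩ := hJ
  unfold cl at hw
  rw [Finset.mem_union, not_or, Finset.mem_biUnion] at hw
  obtain ⟨hw1, hw2⟩ := hw
  have hw3 : ∀ x ∈ insert v (J ∪ A), ¬ G.Adj x w := fun x hx h => hw2 ⟨x, hx, mem_nb.2 h⟩
  rw [Finset.mem_insert, not_or, Finset.mem_union, not_or] at hw1
  have hJA' : Ind G (insert w (J ∪ A)) := by
    intro a ha b hb hab
    rw [Finset.mem_insert] at ha hb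
    rcases ha with rfl | ha
    · rcases hb with rfl | hb
      · exact hab.ne rfl
      · exact hw3 b (Finset.mem_insert_of_mem hb) hab.symm
    · rcases hb with rfl | hb
      · exact hw3 a (Finset.mem_insert_of_mem ha) hab
      · exact hJA a ha b hb hab
  refine ⟨hw1.2.1, ⟨⟨?_, ?_, ?_, ?_⟩, ?_, ?_⟩⟩
  · rw [Finset.card_insert_of_notMem hw1.2.1, hJc]
  · rw [Finset.mem_insert, not_or]
    exact ⟨fun h => hw1.1 h.symm, hvJ⟩
  · exact hJA'.mono (Finset.insert_subset_insert _ Finset.subset_union_left)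
  · intro u hu
    rw [Finset.mem_insert] at hu
    rcases hu with rfl | hu
    · exact hw3 v (Finset.mem_insert_self _ _)
    · exact hJv u hu
  · rw [Finset.insert_union]
    exact hJA'
  · exact fun h => hJT (h.mono (Finset.union_subset_union (Finset.subset_insert _ _) le_rfl))

lemma pj_growth {d n : ℕ} (hG : G.IsRegularOfDegree d) (hn : Fintype.card V = n)
    (v : V) (A T : Finset V) (j : ℕ) :
    ((n : ℤ) - (d + 1) * (j + A.card + 1)) * (pj G v A T j).card ≤
      (j + 1) * (pj G v A T (j + 1)).card := by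
  have h1 : (pj G v A T j).sigma (fun J => univ \ cl G (insert v (J ∪ A))) =
      (pj G v A T j).sigma (fun J => univ \ cl G (insert v (J ∪ A))) := rfl
  have h2 : ((pj G v A T j).sigma (fun J => univ \ cl G (insert v (J ∪ A)))).card ≤
      ((pj G v A T (j + 1)).sigma (fun J => J)).card := by
    refine Finset.card_le_card_of_injOn (fun p => ⟨insert p.2 p.1, p.2⟩) ?_ ?_
    · rintro ⟨J, w⟩ hp
      rw [Finset.mem_coe, Finset.mem_sigma, Finset.mem_sdiff] at hp
      rw [Finset.mem_coe, Finset.mem_sigma]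
      exact ⟨(pj_insert hp.1 hp.2.2).2, Finset.mem_insert_self _ _⟩
    · rintro ⟨J, w⟩ hp ⟨J', w'⟩ hp' h
      rw [Finset.mem_coe, Finset.mem_sigma, Finset.mem_sdiff] at hp hp'
      simp only [Sigma.mk.injEq, heq_eq_eq] at h
      obtain ⟨h3, rfl⟩ := h
      have h4 := (pj_insert hp.1 hp.2.2).1
      have h5 := (pj_insert hp'.1 hp'.2.2).1
      simp only at h3 h4 h5
      have : J = J' := by
        rw [← Finset.erase_insert h4, h3, Finset.erase_insert h5]
      rw [this]
  rw [Finset.card_sigma, Finset.card_sigma] at h2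
  have h3 : ∑ J ∈ pj G v A T (j + 1), J.card = (pj G v A T (j + 1)).card * (j + 1) := by
    rw [Finset.sum_const_nat]
    intro J hJ
    exact (mem_pj.1 hJ).1.1
  have h4 : ∀ J ∈ pj G v A T j, ((n : ℤ) - (d + 1) * (j + A.card + 1)) ≤
      ((univ \ cl G (insert v (J ∪ A))).card : ℤ) := by
    intro J hJ
    have h5 := card_cl hG (insert v (J ∪ A))
    have h6 : (insert v (J ∪ A)).card ≤ j + A.card + 1 := by
      refine (Finset.card_insert_le _ _).trans ?_
      have := Finset.card_union_le J A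
      rw [(mem_pj.1 hJ).1.1] at this
      omega
    have h7 := Finset.card_sdiff_add_card_eq_card
      (Finset.subset_univ (cl G (insert v (J ∪ A))))
    rw [Finset.card_univ, hn] at h7
    have h8 : (cl G (insert v (J ∪ A))).card ≤ (d + 1) * (j + A.card + 1) :=
      h5.trans (Nat.mul_le_mul_left _ h6)
    have h9 : ((cl G (insert v (J ∪ A))).card : ℤ) ≤ (d + 1) * (j + A.card + 1) := by
      exact_mod_cast h8
    have h10 : (((univ \ cl G (insert v (J ∪ A))).card : ℤ)) +
        ((cl G (insert v (J ∪ A))).card : ℤ) = n := by exact_mod_cast h7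
    linarith
  have h5 := Finset.sum_le_sum h4
  rw [Finset.sum_const, nsmul_eq_mul] at h5
  rw [h3] at h2
  have h6 : (∑ J ∈ pj G v A T j, ((univ \ cl G (insert v (J ∪ A))).card : ℤ)) ≤
      (pj G v A T (j + 1)).card * (j + 1) := by exact_mod_cast h2
  linarith

lemma mc_sum_eq (v : V) (s t j : ℕ) :
    ∑ J ∈ fars G v j, mc G v J s t =
      ∑ T ∈ (nb G v).powersetCard t, ∑ A ∈ T.powersetCard s, (pj G v A T j).card := by
  unfold mc
  rw [Finset.sum_comm]
  refine Finset.sum_congr rfl fun T _ => ?_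
  rw [Finset.sum_comm]
  refine Finset.sum_congr rfl fun A _ => ?_
  rw [← Finset.sum_filter, Finset.sum_const, smul_eq_mul, mul_one]
  rfl

lemma tc_growth {d n : ℕ} (hG : G.IsRegularOfDegree d) (hn : Fintype.card V = n) (s t j : ℕ) :
    ((n : ℤ) - (d + 1) * (j + s + 1)) * tc G s t j ≤ (j + 1) * tc G s t (j + 1) := by
  unfold tc
  simp_rw [mc_sum_eq]
  push_cast
  simp_rw [Finset.mul_sum]
  refine Finset.sum_le_sum fun v _ => Finset.sum_le_sum fun T _ => Finset.sum_le_sum fun A hA => ?_
  rw [Finset.mem_powersetCard] at hA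
  have := pj_growth hG hn v A T j
  rw [hA.2] at this
  exact this

end Growth

end Pool.Agent.Lib.MP_99e3ed_co
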