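import Pool.Agent.Lib.MP_99e3ed_co.Basic

set_option autoImplicit false

open Finset
open Classical

namespace Pool.Agent.Lib.MP_99e3ed_co

section Local

variable {V : Type*} [Fintype V] (G : SimpleGraph V)

/-- Number of independent sets of size `k`. -/
noncomputable def ic (k : ℕ) : ℕ := (G.indepSetFinset k).card

/-- Neighbours of `v`. -/
noncomputable def nb (v : V) : Finset V := univ.filter (fun u => G.Adj v u)

/-- Independence. -/
def Ind (S : Finset V) : Prop := ∀ a ∈ S, ∀ b ∈ S, ¬ G.Adj a b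

/-- `J` is independent, does not contain `v` nor neighbours of `v`. -/
def Far (v : V) (J : Finset V) : Prop := v ∉ J ∧ Ind G J ∧ ∀ u ∈ J, ¬ G.Adj v u

variable {G}

lemma mem_nb {u v : V} : u ∈ nb G v ↔ G.Adj v u := by simp [nb]

omit [Fintype V] in
lemma ind_iff {S : Finset V} : G.IsIndepSet (S : Set V) ↔ Ind G S := by
  constructor
  · intro h a ha b hb hab
    exact h (by exact_mod_cast ha) (by exact_mod_cast hb) hab.ne hab
  · intro h a ha b hb _
    exact h a (by exact_mod_cast ha) b (by exact_mod_cast hb)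

lemma mem_ind {k : ℕ} {I : Finset V} : I ∈ G.indepSetFinset k ↔ Ind G I ∧ I.card = k := by
  rw [SimpleGraph.mem_indepSetFinset_iff, SimpleGraph.isNIndepSet_iff, ind_iff]

omit [Fintype V] in
lemma Ind.mono {S T : Finset V} (h : Ind G T) (hST : S ⊆ T) : Ind G S :=
  fun a ha b hb => h a (hST ha) b (hST hb)

lemma card_nb {d : ℕ} (hG : G.IsRegularOfDegree d) (v : V) : (nb G v).card = d := by
  have := hG v
  rw [← this, ← SimpleGraph.card_neighborFinset_eq_degree]
  congr 1
  ext b
  simp [nb]

variable (G)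

/-- Sets `J` of size `j` far from `v`. -/
noncomputable def fars (v : V) (j : ℕ) : Finset (Finset V) :=
  univ.filter (fun J => J.card = j ∧ Far G v J)

/-- The sets `A ⊆ N(v)` of size `s` with `J ∪ A` independent. -/
noncomputable def ext (v : V) (J : Finset V) (s : ℕ) : Finset (Finset V) :=
  ((nb G v).powersetCard s).filter (fun A => Ind G (J ∪ A))

/-- The local count. -/
noncomputable def ac (j s : ℕ) : ℕ := ∑ v, ∑ J ∈ fars G v j, (ext G v J s).card

variable {G}

lemma mem_fars {v : V} {j : ℕ} {J : Finset V} : J ∈ fars G v j ↔ J.card = j ∧ Far G v J := by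
  simp [fars]

lemma mem_ext {v : V} {J A : Finset V} {s : ℕ} :
    A ∈ ext G v J s ↔ (A ⊆ nb G v ∧ A.card = s) ∧ Ind G (J ∪ A) := by
  simp [ext, Finset.mem_powersetCard]

/-- The independent `k`-sets not containing `v` with `s` neighbours of `v`. -/
lemma card_local (v : V) {k s : ℕ} (hs : s ≤ k) :
    ((G.indepSetFinset k).filter (fun I => v ∉ I ∧ (I ∩ nb G v).card = s)).card =
      ∑ J ∈ fars G v (k - s), (ext G v J s).card := by
  rw [← Finset.card_sigma]
  refine Finset.card_bij' (fun I _ => (⟨I \ nb G v, I ∩ nb G v⟩ : (_ : Finset V) × Finset V))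
    (fun p _ => p.1 ∪ p.2) ?_ ?_ ?_ ?_
  · intro I hI
    rw [Finset.mem_filter, mem_ind] at hI
    obtain ⟨⟨hI, hIc⟩, hv, hs'⟩ := hI
    rw [Finset.mem_sigma, mem_fars, mem_ext]
    refine ⟨⟨?_, ?_, hI.mono Finset.sdiff_subset, ?_⟩, ⟨Finset.inter_subset_right, hs'⟩, ?_⟩
    · have := Finset.card_sdiff_add_card_inter I (nb G v)
      simp only at this ⊢
      omega
    · exact fun h => hv (Finset.mem_sdiff.1 h).1
    · intro u hu hvu
      exact (Finset.mem_sdiff.1 hu).2 (mem_nb.2 hvu)
    · simp only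
      rw [Finset.sdiff_union_inter]
      exact hI
  · rintro ⟨J, A⟩ hp
    rw [Finset.mem_sigma, mem_fars, mem_ext] at hp
    obtain ⟨⟨hJc, hvJ, hJ, hJv⟩, ⟨hA, hAc⟩, hJA⟩ := hp
    simp only at hJc hvJ hJ hJv hA hAc hJA ⊢
    have hdis : Disjoint J A := by
      rw [Finset.disjoint_left]
      exact fun u hu hu' => hJv u hu (mem_nb.1 (hA hu'))
    rw [Finset.mem_filter, mem_ind]
    refine ⟨⟨hJA, ?_⟩, ?_, ?_⟩
    · rw [Finset.card_union_of_disjoint hdis, hJc, hAc]; omega
    · rw [Finset.mem_union]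
      rintro (h | h)
      · exact hvJ h
      · exact (mem_nb.1 (hA h)).ne rfl
    · have : (J ∪ A) ∩ nb G v = A := by
        ext u
        simp only [Finset.mem_inter, Finset.mem_union]
        constructor
        · rintro ⟨h | h, h'⟩
          · exact absurd (mem_nb.1 h') (hJv u h)
          · exact h
        · exact fun h => ⟨Or.inr h, hA h⟩
      rw [this, hAc]
  · intro I _
    exact Finset.sdiff_union_inter I (nb G v)
  · rintro ⟨J, A⟩ hp
    rw [Finset.mem_sigma, mem_fars, mem_ext] at hp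
    obtain ⟨⟨hJc, hvJ, hJ, hJv⟩, ⟨hA, hAc⟩, hJA⟩ := hp
    simp only at hJc hvJ hJ hJv hA hAc hJA ⊢
    have h1 : (J ∪ A) ∩ nb G v = A := by
      ext u
      simp only [Finset.mem_inter, Finset.mem_union]
      constructor
      · rintro ⟨h | h, h'⟩
        · exact absurd (mem_nb.1 h') (hJv u h)
        · exact h
      · exact fun h => ⟨Or.inr h, hA h⟩
    have h2 : (J ∪ A) \ nb G v = J := by
      ext u
      simp only [Finset.mem_sdiff, Finset.mem_union]
      constructor
      · rintro ⟨h | h, h'⟩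
        · exact h
        · exact absurd (hA h) h'
      · exact fun h => ⟨Or.inl h, fun h' => hJv u h (mem_nb.1 h')⟩
    rw [h1, h2]

/-- The local decomposition of sums over pairs `(I, v)` with `v ∉ I`. -/
lemma local_sum (k : ℕ) (φ : ℕ → ℚ) :
    ∑ v : V, ∑ I ∈ (G.indepSetFinset k).filter (fun I => v ∉ I), φ (I ∩ nb G v).card =
      ∑ s ∈ range (k + 1), φ s * (ac G (k - s) s : ℚ) := by
  unfold ac
  push_cast
  simp_rw [Finset.mul_sum]
  rw [Finset.sum_comm]
  refine Finset.sum_congr rfl fun v _ => ?_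
  rw [← Finset.sum_fiberwise_of_maps_to (t := range (k + 1)) (g := fun I => (I ∩ nb G v).card)]
  · refine Finset.sum_congr rfl fun s hs => ?_
    rw [← Finset.mul_sum]
    have h1 : ∀ I ∈ ((G.indepSetFinset k).filter (fun I => v ∉ I)).filter
        (fun I => (I ∩ nb G v).card = s), φ (I ∩ nb G v).card = φ s := by
      intro I hI
      rw [(Finset.mem_filter.1 hI).2]
    rw [Finset.sum_congr rfl h1, Finset.sum_const, nsmul_eq_mul, mul_comm, Finset.filter_filter]
    congr 1
    have := card_local (G := G) v (k := k) (s := s) (by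
      have := Finset.mem_range.1 hs; omega)
    exact_mod_cast this
  · intro I hI
    rw [Finset.mem_filter, mem_ind] at hI
    rw [Finset.mem_range]
    have := Finset.card_le_card (Finset.inter_subset_left (s₁ := I) (s₂ := nb G v))
    omega

lemma local_total {n : ℕ} (hn : Fintype.card V = n) (k : ℕ) :
    ∑ s ∈ range (k + 1), (ac G (k - s) s : ℚ) = ((n : ℚ) - k) * ic G k := by
  have h := local_sum (G := G) k (fun _ => 1)
  simp only [one_mul] at h
  rw [← h]
  have h2 : ∀ v : V, ∑ I ∈ (G.indepSetFinset k).filter (fun I => v ∉ I), (1 : ℚ) =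
      ∑ I ∈ G.indepSetFinset k, if v ∉ I then (1 : ℚ) else 0 := fun v => by
    rw [Finset.sum_filter]
  simp_rw [h2]
  rw [Finset.sum_comm]
  have h3 : ∀ I ∈ G.indepSetFinset k, ∑ v : V, (if v ∉ I then (1 : ℚ) else 0) = (n : ℚ) - k := by
    intro I hI
    rw [mem_ind] at hI
    rw [← Finset.sum_filter, Finset.sum_const, nsmul_eq_mul, mul_one]
    have h4 : (univ.filter (fun v => v ∉ I)) = univ \ I := by
      ext v; simp
    rw [h4]
    have h5 := Finset.card_sdiff_add_card_eq_card (Finset.subset_univ I)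
    rw [Finset.card_univ, hn, hI.2] at h5
    have : ((univ \ I).card : ℚ) + k = n := by exact_mod_cast h5
    linarith
  rw [Finset.sum_congr rfl h3, Finset.sum_const, nsmul_eq_mul, mul_comm]
  rfl

lemma local_weighted {d : ℕ} (hG : G.IsRegularOfDegree d) (k : ℕ) :
    ∑ s ∈ range (k + 1), (s : ℚ) * (ac G (k - s) s : ℚ) = (d : ℚ) * k * ic G k := by
  have h := local_sum (G := G) k (fun s => (s : ℚ))
  rw [← h]
  have h2 : ∀ v : V, ∑ I ∈ (G.indepSetFinset k).filter (fun I => v ∉ I),
      ((I ∩ nb G v).card : ℚ) =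
      ∑ I ∈ G.indepSetFinset k, ((I ∩ nb G v).card : ℚ) := fun v => by
    rw [Finset.sum_filter]
    refine Finset.sum_congr rfl fun I hI => ?_
    rw [mem_ind] at hI
    split_ifs with hv
    · have : I ∩ nb G v = ∅ := by
        rw [Finset.eq_empty_iff_forall_notMem]
        intro u hu
        rw [Finset.mem_inter, mem_nb] at hu
        exact hI.1 v hv u hu.1 hu.2
      rw [this]; simp
    · rfl
  simp_rw [h2]
  rw [Finset.sum_comm]
  have h3 : ∀ I ∈ G.indepSetFinset k, ∑ v : V, ((I ∩ nb G v).card : ℚ) = (d : ℚ) * k := by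
    intro I hI
    rw [mem_ind] at hI
    have h4 : ∀ v : V, ((I ∩ nb G v).card : ℚ) = ∑ u ∈ I, if G.Adj v u then (1 : ℚ) else 0 := by
      intro v
      rw [← Finset.sum_filter, Finset.sum_const, nsmul_eq_mul, mul_one]
      congr 2
      ext u
      simp [mem_nb]
    simp_rw [h4]
    rw [Finset.sum_comm]
    have h5 : ∀ u ∈ I, ∑ v : V, (if G.Adj v u then (1 : ℚ) else 0) = d := by
      intro u _
      rw [← Finset.sum_filter, Finset.sum_const, nsmul_eq_mul, mul_one]
      have h6 := card_nb hG u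
      have h7 : (univ.filter (fun v => G.Adj v u)) = nb G u := by
        ext w; simp [nb, G.adj_comm]
      rw [h7, h6]
    rw [Finset.sum_congr rfl h5, Finset.sum_const, nsmul_eq_mul, hI.2]
    ring
  rw [Finset.sum_congr rfl h3, Finset.sum_const, nsmul_eq_mul, mul_comm]
  rfl

lemma local_zero (j : ℕ) : (ac G j 0 : ℚ) = ((j : ℚ) + 1) * ic G (j + 1) := by
  have h := double_count G j (fun _ => 1)
  simp only [mul_one, Finset.sum_const, nsmul_eq_mul] at h
  have h1 : ac G j 0 = ∑ K ∈ G.indepSetFinset j, (free G K).card := by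
    unfold ac
    have h2 : ∀ v : V, ∀ J ∈ fars G v j, (ext G v J 0).card = 1 := by
      intro v J hJ
      rw [mem_fars] at hJ
      have : ext G v J 0 = {∅} := by
        ext A
        rw [mem_ext, Finset.mem_singleton, Finset.card_eq_zero]
        constructor
        · exact fun h => h.1.2
        · rintro rfl
          refine ⟨⟨Finset.empty_subset _, rfl⟩, ?_⟩
          rw [Finset.union_empty]
          exact hJ.2.2.1
      rw [this, Finset.card_singleton]
    have h3 : ∀ v : V, ∑ J ∈ fars G v j, (ext G v J 0).card =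
        ∑ J ∈ G.indepSetFinset j, if v ∈ free G J then 1 else 0 := by
      intro v
      rw [Finset.sum_congr rfl (h2 v), ← Finset.sum_filter]
      refine Finset.sum_congr ?_ fun _ _ => rfl
      ext J
      rw [mem_fars, Finset.mem_filter, mem_ind]
      unfold free Far
      rw [Finset.mem_sdiff, Finset.mem_union, mem_nbhd]
      constructor
      · rintro ⟨h4, h5, h6, h7⟩
        refine ⟨⟨h6, h4⟩, Finset.mem_univ _, ?_⟩
        rintro (h8 | ⟨u, hu, huv⟩)
        · exact h5 h8
        · exact h7 u hu huv.symm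
      · rintro ⟨⟨h6, h4⟩, _, h8⟩
        exact ⟨h4, fun h => h8 (Or.inl h), h6, fun u hu hvu => h8 (Or.inr ⟨u, hu, hvu.symm⟩)⟩
    simp_rw [h3]
    rw [Finset.sum_comm]
    refine Finset.sum_congr rfl fun J _ => ?_
    rw [← Finset.sum_filter, Finset.sum_const, smul_eq_mul, mul_one]
    congr 1
    ext v; simp
  rw [h1]
  unfold ic
  have h4 : ((∑ K ∈ G.indepSetFinset j, (free G K).card : ℕ) : ℤ) =
      ((G.indepSetFinset (j + 1)).card : ℤ) * ((j + 1 : ℕ) : ℤ) := by
    rw [h]
    push_cast
    rfl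
  have h5 : ((∑ K ∈ G.indepSetFinset j, (free G K).card : ℕ) : ℚ) =
      ((G.indepSetFinset (j + 1)).card : ℚ) * ((j + 1 : ℕ) : ℚ) := by exact_mod_cast h4
  rw [h5]
  push_cast
  ring

end Local

end Pool.Agent.Lib.MP_99e3ed_co
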