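import Pool.Agent.Lib.MP_99e3ed_co.Growth

set_option autoImplicit false

open Finset
open Classical

namespace Pool.Agent.Lib.MP_99e3ed_co

/-- The coefficients of the recursion. -/
noncomputable def bc (d : ℕ) (n : ℚ) (k j : ℕ) : ℚ :=
  (d.choose (j + 1) : ℚ) * ((j + 1) * n - 2 * d * ((k : ℚ) - j))

section Slack

variable {V : Type*} [Fintype V] (G : SimpleGraph V)

/-- The slack in the recursion for the numbers of independent sets. -/
noncomputable def slack (d : ℕ) (n : ℚ) (k : ℕ) : ℚ :=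
  ∑ j ∈ range (k + 1), bc d n k j * (ic G (k - j) : ℚ) - d * (k + 1) * (ic G (k + 1) : ℚ)

/-- The inner sum. -/
noncomputable def inner (d N j : ℕ) : ℚ :=
  ∑ p ∈ antidiagonal N,
    ((p.1 : ℚ) - p.2) * ((d.choose (p.1 + 1) : ℚ) * (ac G j (p.2 + 1) : ℚ))

/-- The antisymmetrised difference. -/
noncomputable def df (d j : ℕ) (p : ℕ × ℕ) : ℚ :=
  (d.choose (p.1 + 1) : ℚ) * (ac G j (p.2 + 1) : ℚ) -
    (d.choose (p.2 + 1) : ℚ) * (ac G j (p.1 + 1) : ℚ)

variable {G}

lemma slack_term {d n : ℕ} (hG : G.IsRegularOfDegree d) (hn : Fintype.card V = n) (t K : ℕ) :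
    ((t : ℚ) + 1) * (((n : ℚ) - K) * ic G K - (K + 1) * ic G (K + 1)) - d * K * ic G K =
      ∑ s ∈ range K, ((t : ℚ) - s) * (ac G (K - (s + 1)) (s + 1) : ℚ) := by
  have h1 := local_total (G := G) hn K
  have h2 := local_weighted hG K
  have h3 := local_zero (G := G) K
  rw [← h1, ← h2, ← h3, Finset.sum_range_succ', Finset.sum_range_succ']
  have h4 : ∑ s ∈ range K, ((t : ℚ) - s) * (ac G (K - (s + 1)) (s + 1) : ℚ) =
      ((t : ℚ) + 1) * ∑ s ∈ range K, (ac G (K - (s + 1)) (s + 1) : ℚ) -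
      ∑ s ∈ range K, ((s + 1 : ℕ) : ℚ) * (ac G (K - (s + 1)) (s + 1) : ℚ) := by
    rw [Finset.mul_sum, ← Finset.sum_sub_distrib]
    refine Finset.sum_congr rfl fun s _ => ?_
    push_cast
    ring
  rw [h4]
  simp only [Nat.sub_zero, Nat.cast_zero, zero_mul, add_zero]
  ring

lemma slack_eq_terms {d n : ℕ} (k : ℕ) :
    slack G d n k = ∑ t ∈ range (k + 1), (d.choose (t + 1) : ℚ) *
      (((t : ℚ) + 1) * (((n : ℚ) - ((k - t : ℕ) : ℚ)) * ic G (k - t) -
        (((k - t : ℕ) : ℚ) + 1) * ic G (k - t + 1)) - d * ((k - t : ℕ) : ℚ) * ic G (k - t)) := by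
  have h1 : ∑ t ∈ range (k + 1), (d.choose (t + 1) : ℚ) *
      (((t : ℚ) + 1) * (((n : ℚ) - ((k - t : ℕ) : ℚ)) * ic G (k - t) -
        (((k - t : ℕ) : ℚ) + 1) * ic G (k - t + 1)) - d * ((k - t : ℕ) : ℚ) * ic G (k - t)) =
      ∑ t ∈ range (k + 1), (d.choose (t + 1) : ℚ) *
        (((t : ℚ) + 1) * ((n : ℚ) - ((k - t : ℕ) : ℚ)) - d * ((k - t : ℕ) : ℚ)) * ic G (k - t) -
      ∑ t ∈ range (k + 1), (d.choose (t + 1) : ℚ) * ((t : ℚ) + 1) *
        (((k - t : ℕ) : ℚ) + 1) * ic G (k - t + 1) := by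
    rw [← Finset.sum_sub_distrib]
    exact Finset.sum_congr rfl fun t _ => by ring
  have h2 : ∑ t ∈ range (k + 1), (d.choose (t + 1) : ℚ) * ((t : ℚ) + 1) *
        (((k - t : ℕ) : ℚ) + 1) * ic G (k - t + 1) =
      ∑ t ∈ range (k + 1), (d.choose (t + 1) : ℚ) * ((d : ℚ) - t - 1) *
        ((k - t : ℕ) : ℚ) * ic G (k - t) + d * (k + 1) * ic G (k + 1) := by
    rw [Finset.sum_range_succ', Finset.sum_range_succ (f := fun t => (d.choose (t + 1) : ℚ) *
      ((d : ℚ) - t - 1) * ((k - t : ℕ) : ℚ) * ic G (k - t))]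
    simp only [Nat.sub_self, Nat.cast_zero, mul_zero, zero_mul, add_zero, Nat.sub_zero, zero_add,
      Nat.choose_one_right, mul_one]
    congr 1
    refine Finset.sum_congr rfl fun t ht => ?_
    have ht' := Finset.mem_range.1 ht
    have h3 : k - (t + 1) + 1 = k - t := by omega
    have h4 : ((k - (t + 1) : ℕ) : ℚ) + 1 = ((k - t : ℕ) : ℚ) := by
      rw [← h3]; push_cast; ring
    rw [h3, h4]
    have h5 : (d.choose (t + 1 + 1) : ℚ) * (((t + 1 : ℕ) : ℚ) + 1) =
        (d.choose (t + 1) : ℚ) * ((d : ℚ) - t - 1) := by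
      have h6 := Nat.choose_succ_right_eq d (t + 1)
      rcases le_or_gt (t + 1) d with h | h
      · have h7 : ((d - (t + 1) : ℕ) : ℚ) = (d : ℚ) - t - 1 := by
          rw [Nat.cast_sub h]; push_cast; ring
        rw [← h7]
        exact_mod_cast h6
      · rw [Nat.choose_eq_zero_of_lt h, Nat.choose_eq_zero_of_lt (by omega : d < t + 1 + 1)]
        simp
    rw [h5]
  rw [h1, h2, slack]
  have h3 : ∑ j ∈ range (k + 1), bc d n k j * (ic G (k - j) : ℚ) =
      ∑ t ∈ range (k + 1), (d.choose (t + 1) : ℚ) *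
        (((t : ℚ) + 1) * ((n : ℚ) - ((k - t : ℕ) : ℚ)) - d * ((k - t : ℕ) : ℚ)) * ic G (k - t) -
      ∑ t ∈ range (k + 1), (d.choose (t + 1) : ℚ) * ((d : ℚ) - t - 1) *
        ((k - t : ℕ) : ℚ) * ic G (k - t) := by
    rw [← Finset.sum_sub_distrib]
    refine Finset.sum_congr rfl fun t ht => ?_
    have ht' := Finset.mem_range.1 ht
    have h4 : ((k - t : ℕ) : ℚ) = (k : ℚ) - t := by
      rw [Nat.cast_sub (by omega)]
    rw [bc, h4]
    ring
  rw [h3]
  ring

lemma slack_eq_inner {d n : ℕ} (hG : G.IsRegularOfDegree d) (hn : Fintype.card V = n) (k : ℕ) :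
    slack G d n k = ∑ N ∈ range k, inner G d N (k - 1 - N) := by
  rw [slack_eq_terms]
  have h1 : ∀ t ∈ range (k + 1), (d.choose (t + 1) : ℚ) *
      (((t : ℚ) + 1) * (((n : ℚ) - ((k - t : ℕ) : ℚ)) * ic G (k - t) -
        (((k - t : ℕ) : ℚ) + 1) * ic G (k - t + 1)) - d * ((k - t : ℕ) : ℚ) * ic G (k - t)) =
      ∑ s ∈ range (k - t), ((t : ℚ) - s) *
        ((d.choose (t + 1) : ℚ) * (ac G (k - 1 - (t + s)) (s + 1) : ℚ)) := by
    intro t _
    rw [slack_term hG hn t (k - t), Finset.mul_sum]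
    refine Finset.sum_congr rfl fun s hs => ?_
    have hs' := Finset.mem_range.1 hs
    have : k - t - (s + 1) = k - 1 - (t + s) := by omega
    rw [this]
    ring
  rw [Finset.sum_congr rfl h1]
  unfold inner
  rw [Finset.sum_sigma', Finset.sum_sigma']
  refine Finset.sum_bij' (fun p _ => (⟨p.1 + p.2, (p.1, p.2)⟩ : (_ : ℕ) × ℕ × ℕ))
    (fun q _ => ⟨q.2.1, q.2.2⟩) ?_ ?_ ?_ ?_ ?_
  · rintro ⟨t, s⟩ h
    simp only [Finset.mem_sigma, Finset.mem_range, Finset.HasAntidiagonal.mem_antidiagonal] at h ⊢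
    exact ⟨by omega, trivial⟩
  · rintro ⟨N, t, s⟩ h
    simp only [Finset.mem_sigma, Finset.mem_range, Finset.HasAntidiagonal.mem_antidiagonal] at h ⊢
    omega
  · rintro ⟨t, s⟩ h
    rfl
  · rintro ⟨N, t, s⟩ h
    simp only [Finset.mem_sigma, Finset.mem_range, Finset.HasAntidiagonal.mem_antidiagonal] at h ⊢
    obtain ⟨h1, rfl⟩ := h
    rfl
  · rintro ⟨t, s⟩ h
    rfl

lemma inner_eq {d N j : ℕ} :
    2 * inner G d N j = ∑ p ∈ antidiagonal N, ((p.1 : ℚ) - p.2) * df G d j p := by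
  have h1 : inner G d N j = ∑ p ∈ antidiagonal N,
      ((p.2 : ℚ) - p.1) * ((d.choose (p.2 + 1) : ℚ) * (ac G j (p.1 + 1) : ℚ)) := by
    unfold inner
    rw [← Finset.Nat.sum_antidiagonal_swap]
    rfl
  rw [two_mul]
  nth_rewrite 2 [h1]
  unfold inner df
  rw [← Finset.sum_add_distrib]
  exact Finset.sum_congr rfl fun p _ => by ring

lemma df_formula {d : ℕ} (hG : G.IsRegularOfDegree d) (j : ℕ) {s t : ℕ} (hst : s ≤ t) :
    ((t + 1).choose (s + 1) : ℚ) * df G d j (t, s) =
      (d.choose (s + 1) : ℚ) * (tc G (s + 1) (t + 1) j : ℚ) := by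
  have h := tc_formula hG (s := s + 1) (t := t + 1) (by omega) j
  have h' : ((t + 1).choose (s + 1) : ℚ) * ((d.choose (t + 1) : ℚ) * (ac G j (s + 1) : ℚ)) =
      ((t + 1).choose (s + 1) : ℚ) * ((d.choose (s + 1) : ℚ) * (ac G j (t + 1) : ℚ)) +
      (d.choose (s + 1) : ℚ) * (tc G (s + 1) (t + 1) j : ℚ) := by exact_mod_cast h
  unfold df
  rw [mul_sub]
  linarith

lemma df_nonneg {d : ℕ} (hG : G.IsRegularOfDegree d) (j : ℕ) {s t : ℕ} (hst : s ≤ t) :
    0 ≤ df G d j (t, s) := by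
  have h := df_formula hG j hst
  have hpos : (0 : ℚ) < ((t + 1).choose (s + 1) : ℚ) := by
    exact_mod_cast Nat.choose_pos (by omega)
  by_contra hcon
  push Not at hcon
  have h1 := mul_neg_of_pos_of_neg hpos hcon
  rw [h] at h1
  have h2 : (0 : ℚ) ≤ (d.choose (s + 1) : ℚ) * (tc G (s + 1) (t + 1) j : ℚ) := by positivity
  linarith

lemma df_growth {d n : ℕ} (hG : G.IsRegularOfDegree d) (hn : Fintype.card V = n) (j : ℕ)
    {s t : ℕ} (hst : s ≤ t) :
    ((n : ℚ) - (d + 1) * (j + s + 2)) * df G d j (t, s) ≤ (j + 1) * df G d (j + 1) (t, s) := by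
  have h1 := df_formula hG j hst
  have h2 := df_formula hG (j + 1) hst
  have h3 := tc_growth hG hn (s + 1) (t + 1) j
  have h3' : ((n : ℚ) - (d + 1) * (j + (s + 1) + 1)) * tc G (s + 1) (t + 1) j ≤
      (j + 1) * tc G (s + 1) (t + 1) (j + 1) := by exact_mod_cast h3
  have hpos : (0 : ℚ) < ((t + 1).choose (s + 1) : ℚ) := by
    exact_mod_cast Nat.choose_pos (by omega)
  have h4 : (0 : ℚ) ≤ (d.choose (s + 1) : ℚ) := by positivity
  refine le_of_mul_le_mul_left ?_ hpos
  calc ((t + 1).choose (s + 1) : ℚ) * (((n : ℚ) - (d + 1) * (j + s + 2)) * df G d j (t, s))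
      = ((n : ℚ) - (d + 1) * (j + s + 2)) *
          (((t + 1).choose (s + 1) : ℚ) * df G d j (t, s)) := by ring
    _ = (d.choose (s + 1) : ℚ) *
          (((n : ℚ) - (d + 1) * (j + (s + 1) + 1)) * tc G (s + 1) (t + 1) j) := by
        rw [h1]; ring
    _ ≤ (d.choose (s + 1) : ℚ) * ((j + 1) * tc G (s + 1) (t + 1) (j + 1)) :=
        mul_le_mul_of_nonneg_left h3' h4
    _ = (j + 1) * (((t + 1).choose (s + 1) : ℚ) * df G d (j + 1) (t, s)) := by
        rw [h2]; ring
    _ = _ := by ring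

lemma df_swap (d j : ℕ) (s t : ℕ) : df G d j (s, t) = - df G d j (t, s) := by
  unfold df
  ring

lemma inner_nonneg {d : ℕ} (hG : G.IsRegularOfDegree d) (N j : ℕ) : 0 ≤ inner G d N j := by
  have h : 0 ≤ 2 * inner G d N j := by
    rw [inner_eq]
    refine Finset.sum_nonneg fun p _ => ?_
    obtain ⟨a, b⟩ := p
    rcases le_total b a with h | h
    · have h1 := df_nonneg hG j h
      have h2 : (b : ℚ) ≤ a := by exact_mod_cast h
      exact mul_nonneg (by simp only; linarith) h1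
    · have h1 := df_nonneg hG j h
      have h2 : (a : ℚ) ≤ b := by exact_mod_cast h
      rw [df_swap]
      have h3 := mul_nonneg (sub_nonneg.2 h2) h1
      simp only
      linarith
  linarith

lemma inner_growth {d n : ℕ} (hG : G.IsRegularOfDegree d) (hn : Fintype.card V = n) (N j : ℕ)
    {L : ℚ} (hL : L ≤ (n : ℚ) - (d + 1) * (j + N + 1)) :
    L * inner G d N j ≤ (j + N) * inner G d N (j + 1) := by
  have key : ∀ s t : ℕ, s + t = N → s < t →
      L * (((t : ℚ) - s) * df G d j (t, s)) ≤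
        (j + N) * (((t : ℚ) - s) * df G d (j + 1) (t, s)) := by
    intro s t hN hst
    have h1 := df_growth hG hn j hst.le
    have h2 := df_nonneg hG j hst.le
    have h2' := df_nonneg hG (j + 1) hst.le
    have h3 : (0 : ℚ) < (t : ℚ) - s := by
      have : (s : ℚ) < t := by exact_mod_cast hst
      linarith
    have h4 : (s : ℚ) + 1 ≤ N := by
      have : s + 1 ≤ N := by omega
      exact_mod_cast this
    have h5 : L ≤ (n : ℚ) - (d + 1) * (j + s + 2) := by
      refine hL.trans ?_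
      have : ((d : ℚ) + 1) * (j + s + 2) ≤ (d + 1) * (j + N + 1) :=
        mul_le_mul_of_nonneg_left (by linarith) (by positivity)
      linarith
    have h6 : L * df G d j (t, s) ≤ (j + 1) * df G d (j + 1) (t, s) :=
      (mul_le_mul_of_nonneg_right h5 h2).trans h1
    have h7 : ((j : ℚ) + 1) * df G d (j + 1) (t, s) ≤ (j + N) * df G d (j + 1) (t, s) := by
      refine mul_le_mul_of_nonneg_right ?_ h2'
      have : (1 : ℚ) ≤ N := by
        have : (0 : ℚ) ≤ s := by positivity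
        linarith
      linarith
    have h8 := mul_le_mul_of_nonneg_left (h6.trans h7) h3.le
    linarith
  have h : L * (2 * inner G d N j) ≤ (j + N) * (2 * inner G d N (j + 1)) := by
    rw [inner_eq, inner_eq, Finset.mul_sum, Finset.mul_sum]
    refine Finset.sum_le_sum fun p hp => ?_
    obtain ⟨a, b⟩ := p
    rw [Finset.HasAntidiagonal.mem_antidiagonal] at hp
    simp only at hp ⊢
    rcases lt_trichotomy a b with h | h | h
    · have := key a b hp h
      rw [df_swap, df_swap (j := j + 1)]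
      linarith
    · subst h
      simp
    · have := key b a (by omega) h
      linarith
  linarith

lemma slack_growth {d n : ℕ} (hG : G.IsRegularOfDegree d) (hn : Fintype.card V = n) (k : ℕ)
    {L : ℚ} (hL : L ≤ (n : ℚ) - (d + 1) * (k + 1)) :
    L * slack G d n (k + 1) ≤ k * slack G d n (k + 2) := by
  rw [slack_eq_inner hG hn, slack_eq_inner hG hn, Finset.mul_sum, Finset.mul_sum,
    Finset.sum_range_succ (n := k + 1)]
  have h0 : 0 ≤ (k : ℚ) * inner G d (k + 1) (k + 2 - 1 - (k + 1)) :=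
    mul_nonneg (by positivity) (inner_nonneg hG _ _)
  refine (Finset.sum_le_sum fun N hN => ?_).trans (le_add_of_nonneg_right h0)
  have hN' := Finset.mem_range.1 hN
  have h1 : k + 2 - 1 - N = (k + 1 - 1 - N) + 1 := by omega
  rw [h1]
  have h2 : (((k + 1 - 1 - N : ℕ) : ℚ)) + N = k := by
    have : (k + 1 - 1 - N) + N = k := by omega
    exact_mod_cast this
  have h3 := inner_growth hG hn N (k + 1 - 1 - N) (L := L) (by rw [h2]; exact hL)
  rw [h2] at h3
  exact h3

lemma slack_nonneg {d n : ℕ} (hG : G.IsRegularOfDegree d) (hn : Fintype.card V = n) (k : ℕ) :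
    0 ≤ slack G d n k := by
  rw [slack_eq_inner hG hn]
  exact Finset.sum_nonneg fun N _ => inner_nonneg hG _ _

lemma slack_zero {d n : ℕ} (hG : G.IsRegularOfDegree d) (hn : Fintype.card V = n) :
    slack G d n 0 = 0 := by
  rw [slack_eq_inner hG hn]; simp

lemma slack_one {d n : ℕ} (hG : G.IsRegularOfDegree d) (hn : Fintype.card V = n) :
    slack G d n 1 = 0 := by
  rw [slack_eq_inner hG hn]; simp [inner]

/-- If all neighbours of each vertex have the same neighbourhood, the slack vanishes. -/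
lemma slack_twin {d n : ℕ} (hG : G.IsRegularOfDegree d) (hn : Fintype.card V = n)
    (htw : ∀ v a b w, G.Adj v a → G.Adj v b → G.Adj a w → G.Adj b w) (k : ℕ) :
    slack G d n k = 0 := by
  have h0 : ∀ s t j, s ≤ t → tc G (s + 1) (t + 1) j = 0 := by
    intro s t j _
    unfold tc
    refine Finset.sum_eq_zero fun v _ => ?_
    rw [mc_sum_eq]
    refine Finset.sum_eq_zero fun T hT => Finset.sum_eq_zero fun A hA => ?_
    rw [Finset.mem_powersetCard] at hT hA
    rw [Finset.card_eq_zero, Finset.eq_empty_iff_forall_notMem]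
    intro J hJ
    rw [mem_pj] at hJ
    obtain ⟨-, hJA, hJT⟩ := hJ
    obtain ⟨a, ha⟩ : A.Nonempty := by
      rw [← Finset.card_pos, hA.2]; omega
    have hva : G.Adj v a := mem_nb.1 (hT.1 (hA.1 ha))
    have key : ∀ x ∈ J, ∀ y ∈ T, ¬ G.Adj x y := by
      intro x hx y hy hxy
      have hvy : G.Adj v y := mem_nb.1 (hT.1 hy)
      have := htw v y a x hvy hva hxy.symm
      exact hJA a (Finset.mem_union_right _ ha) x (Finset.mem_union_left _ hx) this
    apply hJT
    intro x hx y hy hxy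
    rw [Finset.mem_union] at hx hy
    rcases hx with hx | hx
    · rcases hy with hy | hy
      · exact hJA x (Finset.mem_union_left _ hx) y (Finset.mem_union_left _ hy) hxy
      · exact key x hx y hy hxy
    · rcases hy with hy | hy
      · exact key y hy x hx hxy.symm
      · have hvx : G.Adj v x := mem_nb.1 (hT.1 hx)
        have hvy : G.Adj v y := mem_nb.1 (hT.1 hy)
        exact (htw v x y y hvx hvy hxy).ne rfl
  have h1 : ∀ s t j, s ≤ t → df G d j (t, s) = 0 := by
    intro s t j hst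
    have h := df_formula hG j hst
    rw [h0 s t j hst, Nat.cast_zero, mul_zero] at h
    have hpos : (0 : ℚ) < ((t + 1).choose (s + 1) : ℚ) := by
      exact_mod_cast Nat.choose_pos (by omega)
    exact (mul_eq_zero.1 h).resolve_left hpos.ne'
  rw [slack_eq_inner hG hn]
  refine Finset.sum_eq_zero fun N _ => ?_
  have h2 : 2 * inner G d N (k - 1 - N) = 0 := by
    rw [inner_eq]
    refine Finset.sum_eq_zero fun p _ => ?_
    obtain ⟨a, b⟩ := p
    rcases le_total b a with h | h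
    · rw [h1 b a _ h, mul_zero]
    · rw [df_swap, h1 a b _ h, neg_zero, mul_zero]
  linarith

end Slack

end Pool.Agent.Lib.MP_99e3ed_co
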